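import Pool.Agent.Helper36_MWV.Core

/-!
# MWV row STT: the steps with moved letter `x` and watched letter `y`
-/

namespace Pool.Agent.MWV.H36

open Pool.Agent.Helper14_MV Pool.Agent.Helper2_MV Pool.Agent.MWV

/-- **STT** -/
theorem stt (hPPM : PpmStmt) (hLBK : LbkStmt) (hDCB : DcbStmt) (hFRM : FrmStmt)
    (hMRK : MrkStmt) (hCOV : CovStmt) (hTAU : TauStmt) (hGTR : GtrStmt) (hGST : GstStmt)
    (hCLN : ClnStmt) (hIBM : IbmStmt) : SttStmt := by
  intro N S P Q g k f p q s H hs hor
  have hN := H.wo.pos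
  have hsh : ∀ a ∈ s, a % 3 = 0 := by
    intro a ha
    rcases hs with rfl | rfl
    · simp at ha
    · rw [List.eq_of_mem_replicate ha]
  have hsh' : ∀ a ∈ X N 0 ++ s, a % 3 = 0 := by
    intro a ha
    rcases List.mem_append.1 ha with h | h
    · rw [List.eq_of_mem_replicate h]
    · exact hsh a h
  have hLp : ∀ t : List ℕ, Lp N g t k = [] ++ (X N 0 ++ ((1 :: (X N 3 ++ cr g t 1 k)) ++
      (X N 0 ++ (3 * (k + 2) + 1) :: X N 3))) := by
    intro t
    unfold Lp
    simp only [List.nil_append, List.append_assoc, List.cons_append]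
  have hib : Ib (im N f (X N 0)) (im N f (1 :: (X N 3 ++ cr g s 1 k)))
      (im N f (1 :: (X N 3 ++ cr g (X N 0 ++ s) 1 k))) := by
    have := hIBM N f g 0 k 1 [] s (1 :: X N 3) []
    simpa only [List.nil_append, List.append_nil, List.cons_append] using this
  by_cases hf : f 0 = []
  · have h0 : im N f (X N 0) = [] := by
      rw [List.eq_nil_iff_forall_not_mem]
      intro a ha
      have := (mem_imX hN f (m := 0) (by omega)).1 ha
      rw [hf] at this
      simp at this
    rw [h0] at hib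
    have e := ib_nil hib
    have e2 : im N f (W (PP k P) (PP k Q) (Lp N g s k)) =
        im N f (W (PP k P) (PP k Q) (Lp N g (X N 0 ++ s) k)) := by
      rw [hLp, hLp]
      unfold W
      have c5 : ∀ w : List ℕ, im N f (5 :: w) = f 5 ++ im N f w := im_cons_ne N f (by omega)
      have c2 : ∀ w : List ℕ, im N f (2 :: w) = f 2 ++ im N f w := im_cons_ne N f (by omega)
      rw [im_append, im_append, c2, c2, im_append, im_append _ _ (([] : List ℕ) ++ _), im_append,
        im_append _ _ ([] : List ℕ), im_append, im_append _ _ (X N 0), im_append,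
        im_append _ _ (1 :: _), e]
    rw [e2]
    exact H.wo.refl _
  · have hZ : ∀ t : List ℕ, (∀ a ∈ t, a % 3 = 0) → ∀ α1 γ1 : List ℕ,
        Fr N f (PP k P) (PP k Q) 0 (1 :: (X N 3 ++ cr g t 1 k)) α1 γ1 →
        S (Wb N P Q g k 1) (W (PP k P) (PP k Q) (α1 ++ (im N f (X N 0) ++
          (im N f (1 :: (X N 3 ++ cr g t 1 k)) ++ (im N f (X N 0) ++ γ1))))) →
        (∀ a ∈ im N f [], a % 3 = 0 → a ∈ α1) →
        (∀ a ∈ im N f ((3 * (k + 2) + 1) :: X N 3), a % 3 = 0 → a ∈ γ1) →
        (∀ i, 1 ≤ i → i ≤ k + 1 + 1 → 3 * i + 1 ∈ im N f (1 :: (X N 3 ++ cr g t 1 k))) →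
          False := by
      intro t ht α1 γ1 hFr hS _ hγ hlights
      refine hTAU N S P Q g k f t α1 γ1 H ht hFr hS (fun a ha ha3 => hγ a ?_ ha3)
        (fun i hi1 hi2 => hlights i hi1 (by omega))
      rw [im_cons_ne N f (by omega)]
      exact List.mem_append_right _ ((mem_imX hN f (m := 3) (by omega)).2 ha)
    rcases hor with h | h
    · rw [hLp] at h
      rw [hLp, hLp]
      exact core hPPM hLBK hDCB hFRM hMRK hCOV hGTR hGST hCLN H (d := 1) le_rfl f p q (m := 0)
        (by omega) hf [] _ _ _ h (Or.inl hib) (hZ s hsh)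
    · rw [hLp] at h
      rw [hLp, hLp]
      exact H.wo.symm (core hPPM hLBK hDCB hFRM hMRK hCOV hGTR hGST hCLN H (d := 1) le_rfl f p q
        (m := 0) (by omega) hf [] _ _ _ h (Or.inr hib) (hZ _ hsh'))

end Pool.Agent.MWV.H36
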