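import Pool.Agent.MWV.Stmts

/-!
# MWV: the common part of the rows STS, STT, STR
-/

namespace Pool.Agent.MWV.H36

open Pool.Agent.Helper14_MV Pool.Agent.Helper2_MV Pool.Agent.MWV

/-! ### `im` -/

theorem im_append (N : ℕ) (f : ℕ → List ℕ) (u v : List ℕ) :
    im N f (u ++ v) = im N f u ++ im N f v := by
  unfold im
  rw [List.flatMap_append]

theorem im_cons_ne (N : ℕ) (f : ℕ → List ℕ) {a : ℕ} (h : a % 3 ≠ 0) (u : List ℕ) :
    im N f (a :: u) = f a ++ im N f u := by
  unfold im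
  rw [List.flatMap_cons, if_neg h]

theorem im_X (N : ℕ) (f : ℕ → List ℕ) {m : ℕ} (hm : m % 3 = 0) : ∀ j : ℕ,
    im N f (List.replicate j m) = (List.replicate (j * (N + 1)) (f m)).flatten
  | 0 => by simp [im]
  | j + 1 => by
    have ih := im_X N f hm j
    unfold im at ih ⊢
    rw [List.replicate_succ, List.flatMap_cons, ih, if_pos hm, ← List.flatten_append,
      List.replicate_append_replicate]
    congr 2
    ring

theorem mem_rep {j : ℕ} {w : List ℕ} {a : ℕ} (h : a ∈ (List.replicate j w).flatten) : a ∈ w := by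
  rw [List.mem_flatten] at h
  obtain ⟨l, hl, ha⟩ := h
  rwa [List.eq_of_mem_replicate hl] at ha

theorem rep_mem {j : ℕ} (hj : j ≠ 0) {w : List ℕ} {a : ℕ} (h : a ∈ w) :
    a ∈ (List.replicate j w).flatten := by
  rw [List.mem_flatten]
  exact ⟨w, List.mem_replicate.2 ⟨hj, rfl⟩, h⟩

theorem count_rep (j : ℕ) (w : List ℕ) (a : ℕ) :
    ((List.replicate j w).flatten).count a = j * w.count a := by
  induction j with
  | zero => simp
  | succ j ih =>
    rw [List.replicate_succ, List.flatten_cons, List.count_append, ih]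
    ring

theorem mem_imX {N : ℕ} (hN : 1 ≤ N) (f : ℕ → List ℕ) {m : ℕ} (hm : m % 3 = 0) {a : ℕ} :
    a ∈ im N f (X N m) ↔ a ∈ f m := by
  rw [show im N f (X N m) = _ from im_X N f hm N]
  constructor
  · exact mem_rep
  · refine rep_mem ?_
    exact Nat.mul_ne_zero (by omega) (by omega)

theorem count_imX (N : ℕ) (f : ℕ → List ℕ) {m : ℕ} (hm : m % 3 = 0) (a : ℕ) :
    (im N f (X N m)).count a % N = 0 := by
  rw [show im N f (X N m) = _ from im_X N f hm N, count_rep, mul_assoc]
  exact Nat.mul_mod_right _ _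

/-- insertion of the empty word -/
theorem ib_nil {u v : List ℕ} (h : Ib [] u v) : u = v := by
  induction h with
  | nil => rfl
  | cons a _ ih => rw [ih]
  | ins _ ih => rw [ih]; rfl

/-! ### lights -/

theorem lgt_append (u v : List ℕ) : lgt (u ++ v) = lgt u ++ lgt v := by
  unfold lgt
  rw [List.filter_append]

theorem lgt_heavy {u : List ℕ} (h : ∀ a ∈ u, a % 3 = 0) : lgt u = [] := by
  unfold lgt
  rw [List.filter_eq_nil_iff]
  intro a ha hc
  have := h a ha
  simp [this] at hc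

theorem mem_lgt {u : List ℕ} {a : ℕ} : a ∈ lgt u ↔ a ∈ u ∧ a % 3 ≠ 0 := by
  unfold lgt
  rw [List.mem_filter]
  simp

theorem mem_pl {P : List ℕ} {e : ℕ} (h : e ∈ P) : 3 * e + 1 ∈ pl P := by
  unfold pl
  rw [List.mem_flatMap]
  exact ⟨e, h, by simp⟩

theorem mem_pr {Q : List ℕ} {e : ℕ} (h : e ∈ Q) : 3 * e + 1 ∈ pr Q := by
  unfold pr
  rw [List.mem_flatMap]
  exact ⟨e, h, by simp⟩

/-- the lights of a part of an admissible block -/
theorem lgt_part {P Q A B ν : List ℕ} (h : Ok P Q (A ++ (ν ++ B))) :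
    (lgt ν).Nodup ∧ ∀ c ∈ ν, c % 3 ≠ 0 → c ∈ pl P ∨ c ∈ pr Q := by
  have hmem : ∀ c ∈ ν, c % 3 ≠ 0 → ∃ e ∈ P ++ Q, c = 3 * e + 1 := by
    intro c hc hc3
    rcases h.mem c (by simp [hc]) with h1 | h1
    · exact absurd h1 hc3
    · exact h1
  constructor
  · rw [List.nodup_iff_count_le_one]
    intro c
    by_cases hc : c ∈ lgt ν
    · obtain ⟨hc1, hc3⟩ := mem_lgt.1 hc
      obtain ⟨e, he, rfl⟩ := hmem c hc1 hc3
      have h1 := h.one e he
      have h2 : (lgt ν).count (3 * e + 1) ≤ ν.count (3 * e + 1) :=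
        List.Sublist.count_le _ List.filter_sublist
      simp only [List.count_append] at h1
      omega
    · rw [List.count_eq_zero_of_not_mem hc]
      omega
  · intro c hc hc3
    obtain ⟨e, he, rfl⟩ := hmem c hc hc3
    rcases List.mem_append.1 he with h1 | h1
    · exact Or.inl (mem_pl h1)
    · exact Or.inr (mem_pr h1)

/-- **The common part of STS, STT, STR.** -/
theorem core (hPPM : PpmStmt) (hLBK : LbkStmt) (hDCB : DcbStmt) (hFRM : FrmStmt)
    (hMRK : MrkStmt) (hCOV : CovStmt) (hGTR : GtrStmt) (hGST : GstStmt) (hCLN : ClnStmt)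
    {N : ℕ} {S : List ℕ → List ℕ → Prop} {P Q : List ℕ} {g : ℕ → Bool} {k : ℕ}
    (H : Hyp N S P Q g k) {d : ℕ} (hd1 : d ≤ 1) (f : ℕ → List ℕ) (p q : List ℕ) {m : ℕ}
    (hm : m % 3 = 0) (hfm : f m ≠ []) (α γ μ μ' : List ℕ)
    (hS : S (Wb N P Q g k d) (p ++ (im N f (W (PP k P) (PP k Q)
      (α ++ (X N m ++ (μ ++ (X N m ++ γ))))) ++ q)))
    (hI : Ib (im N f (X N m)) (im N f μ) (im N f μ') ∨
      Ib (im N f (X N m)) (im N f μ') (im N f μ))
    (hZ : ∀ α1 γ1 : List ℕ, Fr N f (PP k P) (PP k Q) m μ α1 γ1 →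
      S (Wb N P Q g k d) (W (PP k P) (PP k Q) (α1 ++ (im N f (X N m) ++
        (im N f μ ++ (im N f (X N m) ++ γ1))))) →
      (∀ a ∈ im N f α, a % 3 = 0 → a ∈ α1) → (∀ a ∈ im N f γ, a % 3 = 0 → a ∈ γ1) →
      (∀ i, d ≤ i → i ≤ k + 1 + d → 3 * i + 1 ∈ im N f μ) → False) :
    S (p ++ (im N f (W (PP k P) (PP k Q) (α ++ (X N m ++ (μ ++ (X N m ++ γ))))) ++ q))
      (p ++ (im N f (W (PP k P) (PP k Q) (α ++ (X N m ++ (μ' ++ (X N m ++ γ))))) ++ q)) := by
  have hN := H.wo.pos
  have hnd : (PP k P ++ PP k Q).Nodup :=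
    (hPPM k P Q H.kp H.pm).1.nodup_iff.2 List.nodup_range
  obtain ⟨L1, hV, hOk, hcon⟩ := hDCB N S P Q g k d _ H hd1 hS
  obtain ⟨α1, γ1, hFr, hL1, hα, hγ, e1, e2⟩ :=
    hFRM N f (PP k P) (PP k Q) m μ α γ p q L1 hN hnd hm hfm hOk hV
  set w0 := im N f (X N m) with hw0
  have hw0h : ∀ a ∈ w0, a % 3 = 0 := fun a ha => hFr.hf a ((mem_imX hN f hm).1 ha)
  -- every word of this form
  have hform : ∀ ν : List ℕ, p ++ (im N f (W (PP k P) (PP k Q)
      (α ++ (X N m ++ (ν ++ (X N m ++ γ))))) ++ q) =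
      (pl (PP k P) ++ 2 :: α1) ++ (w0 ++ (im N f ν ++ (w0 ++ (γ1 ++ 5 :: pr (PP k Q))))) := by
    intro ν
    have h5 : ∀ w : List ℕ, im N f (5 :: w) = f 5 ++ im N f w := im_cons_ne N f (by omega)
    have h2 : ∀ w : List ℕ, im N f (2 :: w) = f 2 ++ im N f w := im_cons_ne N f (by omega)
    unfold W
    simp only [im_append, h2, h5]
    rw [← e1, ← e2]
    simp only [List.append_assoc]
    rfl
  have hS1 : S (Wb N P Q g k d) (W (PP k P) (PP k Q) (α1 ++ (w0 ++ (im N f μ ++ (w0 ++ γ1))))) := by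
    rw [← hL1, ← hV]
    exact hS
  -- insertion is allowed
  have hGd : ∀ h ∈ w0, Gd N S k (pl (PP k P) ++ 2 :: α1) (γ1 ++ 5 :: pr (PP k Q)) h
      (im N f μ) := by
    intro h hh
    have hh3 := hw0h h hh
    obtain ⟨x1, x2, hx⟩ := List.append_of_mem hh
    have hx1 : ∀ a ∈ x1, a % 3 = 0 := fun a ha => hw0h a (by rw [hx]; simp [ha])
    have hx2 : ∀ a ∈ x2, a % 3 = 0 := fun a ha => hw0h a (by rw [hx]; simp [ha])
    have hL1' : α1 ++ (w0 ++ (im N f μ ++ (w0 ++ γ1))) =
        (α1 ++ x1) ++ h :: ((x2 ++ (im N f μ ++ x1)) ++ h :: (x2 ++ γ1)) := by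
      rw [hx]
      simp only [List.append_assoc, List.cons_append]
    have hmemL : h ∈ L1 := by
      rw [hL1, hL1']
      simp
    have hlb := (hcon h).1 hmemL
    obtain ⟨_, hL2, _⟩ := hLBK N g k d P Q hN H.kp hd1 H.pm
    rcases (hL2 h hh3).1 hlb with hd' | ⟨j, hj1, hj2, hgj, hjh⟩
    · -- the watched letter
      by_cases hlen : (lgt (im N f μ)).length ≤ k
      · left
        have hOk' : Ok (PP k P) (PP k Q) ((α1 ++ w0) ++ (im N f μ ++ (w0 ++ γ1))) := by
          rw [hL1] at hOk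
          simpa only [List.append_assoc] using hOk
        obtain ⟨h1, h2⟩ := lgt_part hOk'
        refine ⟨hlen, h1, fun c hc hc3 => ?_⟩
        rcases h2 c hc hc3 with h3 | h3
        · exact Or.inl (List.mem_append_left _ h3)
        · exact Or.inr (List.mem_append_right _ (List.mem_cons_of_mem _ h3))
      · exfalso
        rw [not_le] at hlen
        have hS2 := hS1
        rw [hL1', hd'] at hS2
        have hcov := hCOV N S P Q g k d (α1 ++ x1) (x2 ++ (im N f μ ++ x1)) (x2 ++ γ1) H hd1 hS2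
          (by
            rw [lgt_append, lgt_append, lgt_heavy hx1, lgt_heavy hx2]
            simpa using hlen)
        refine hZ α1 γ1 hFr hS1 hα hγ (fun i hi1 hi2 => ?_)
        have := hcov i hi1 hi2
        rcases List.mem_append.1 this with h3 | h3
        · have := hx2 _ h3
          omega
        · rcases List.mem_append.1 h3 with h4 | h4
          · exact h4
          · have := hx1 _ h4
            omega
    · -- a marker
      have hS2 := hS1
      rw [hL1', hjh] at hS2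
      have h1 := hMRK N S P Q g k d j (α1 ++ x1) (x2 ++ (im N f μ ++ x1)) (x2 ++ γ1) H hd1 hj1
        hj2 hgj hS2
      rw [hjh]
      refine hGTR N S k _ _ _ _ _ x2 (im N f μ) x1 (fun a ha ha3 => ?_) (fun a ha ha3 => ?_)
        (fun a ha => ?_) h1
      · rcases List.mem_append.1 ha with h3 | h3
        · exact List.mem_append_left _ h3
        · rcases List.mem_cons.1 h3 with h4 | h4
          · exact List.mem_append_right _ (by rw [h4]; simp)
          · rcases List.mem_append.1 h4 with h5 | h5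
            · exact List.mem_append_right _ (List.mem_cons_of_mem _ h5)
            · exact absurd (hx1 a h5) ha3
      · rcases List.mem_append.1 ha with h3 | h3
        · rcases List.mem_append.1 h3 with h4 | h4
          · exact absurd (hx2 a h4) ha3
          · exact List.mem_append_left _ h4
        · exact List.mem_append_right _ h3
      · rcases List.mem_append.1 ha with h3 | h3
        · exact hx2 a h3
        · exact hx1 a h3
  have hcount : ∀ a, w0.count a % N = 0 := count_imX N f hm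
  rw [hform μ, hform μ']
  rcases hI with hI | hI
  · exact hCLN N S H.wo k H.fr _ _ w0 w0 _ _ hw0h (fun a ha => ha) hcount hI hGd
  · refine H.wo.symm (hCLN N S H.wo k H.fr _ _ w0 w0 _ _ hw0h (fun a ha => ha) hcount hI ?_)
    intro h hh
    exact (hGST N S k _ _ h w0 _ _ hI hw0h hcount).2 (hGd h hh)

end Pool.Agent.MWV.H36
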