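import Pool.Agent.Helper36_MWV.Core

/-!
# MWV row STS: the steps with moved letter `y` and watched letter `x`
-/

namespace Pool.Agent.MWV.H36

open Pool.Agent.Helper14_MV Pool.Agent.Helper2_MV Pool.Agent.MWV

/-- **STS** -/
theorem sts (hPPM : PpmStmt) (hLBK : LbkStmt) (hDCB : DcbStmt) (hFRM : FrmStmt)
    (hMRK : MrkStmt) (hCOV : CovStmt) (hSIG : SigStmt) (hGTR : GtrStmt) (hGST : GstStmt)
    (hCLN : ClnStmt) (hIBM : IbmStmt) : StsStmt := by
  intro N S P Q g k f p q s H hs hor
  have hN := H.wo.pos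
  have hsh : ∀ a ∈ s, a % 3 = 0 := by
    intro a ha
    rcases hs with rfl | rfl
    · simp at ha
    · rw [List.eq_of_mem_replicate ha]
  have hsh' : ∀ a ∈ s ++ X N 3, a % 3 = 0 := by
    intro a ha
    rcases List.mem_append.1 ha with h | h
    · exact hsh a h
    · rw [List.eq_of_mem_replicate h]
  have hLp : ∀ t : List ℕ, Lp N g t k = (X N 0 ++ [1]) ++ (X N 3 ++ ((cr g t 1 k ++
      (X N 0 ++ [3 * (k + 2) + 1])) ++ (X N 3 ++ []))) := by
    intro t
    unfold Lp
    simp only [List.nil_append, List.append_assoc, List.cons_append, List.append_nil]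
  have hib : Ib (im N f (X N 3)) (im N f (cr g s 1 k ++ (X N 0 ++ [3 * (k + 2) + 1])))
      (im N f (cr g (s ++ X N 3) 1 k ++ (X N 0 ++ [3 * (k + 2) + 1]))) := by
    have := hIBM N f g 3 k 1 s [] [] (X N 0 ++ [3 * (k + 2) + 1])
    simpa only [List.nil_append, List.append_nil] using this
  by_cases hf : f 3 = []
  · have h0 : im N f (X N 3) = [] := by
      rw [List.eq_nil_iff_forall_not_mem]
      intro a ha
      have := (mem_imX hN f (m := 3) (by omega)).1 ha
      rw [hf] at this
      simp at this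
    rw [h0] at hib
    have e := ib_nil hib
    have e2 : im N f (W (PP k P) (PP k Q) (Lp N g s k)) =
        im N f (W (PP k P) (PP k Q) (Lp N g (s ++ X N 3) k)) := by
      have key : ∀ t : List ℕ, im N f (W (PP k P) (PP k Q) (Lp N g t k)) =
          im N f (pl (PP k P)) ++ (im N f (2 :: (X N 0 ++ [1])) ++ (im N f (X N 3) ++
            (im N f (cr g t 1 k ++ (X N 0 ++ [3 * (k + 2) + 1])) ++ (im N f (X N 3) ++
              im N f (5 :: pr (PP k Q)))))) := by
        intro t
        rw [hLp]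
        unfold W
        rw [← im_append, ← im_append, ← im_append, ← im_append, ← im_append]
        simp only [List.append_assoc, List.cons_append, List.nil_append, List.append_nil]
      rw [key, key, e]
    rw [e2]
    exact H.wo.refl _
  · have hZ : ∀ t : List ℕ, (∀ a ∈ t, a % 3 = 0) → ∀ α1 γ1 : List ℕ,
        Fr N f (PP k P) (PP k Q) 3 (cr g t 1 k ++ (X N 0 ++ [3 * (k + 2) + 1])) α1 γ1 →
        S (Wb N P Q g k 0) (W (PP k P) (PP k Q) (α1 ++ (im N f (X N 3) ++
          (im N f (cr g t 1 k ++ (X N 0 ++ [3 * (k + 2) + 1])) ++ (im N f (X N 3) ++ γ1))))) →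
        (∀ a ∈ im N f (X N 0 ++ [1]), a % 3 = 0 → a ∈ α1) →
        (∀ a ∈ im N f [], a % 3 = 0 → a ∈ γ1) →
        (∀ i, 0 ≤ i → i ≤ k + 1 + 0 →
          3 * i + 1 ∈ im N f (cr g t 1 k ++ (X N 0 ++ [3 * (k + 2) + 1]))) → False := by
      intro t ht α1 γ1 hFr hS hα _ hlights
      refine hSIG N S P Q g k f t α1 γ1 H ht hFr hS (fun a ha ha3 => hα a ?_ ha3)
        (fun i hi => hlights i (by omega) (by omega))
      rw [im_append]
      exact List.mem_append_left _ ((mem_imX hN f (m := 0) (by omega)).2 ha)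
    rcases hor with h | h
    · rw [hLp] at h
      rw [hLp, hLp]
      exact core hPPM hLBK hDCB hFRM hMRK hCOV hGTR hGST hCLN H (d := 0) (by omega) f p q (m := 3)
        (by omega) hf _ _ _ _ h (Or.inl hib) (hZ s hsh)
    · rw [hLp] at h
      rw [hLp, hLp]
      exact H.wo.symm (core hPPM hLBK hDCB hFRM hMRK hCOV hGTR hGST hCLN H (d := 0) (by omega)
        f p q (m := 3) (by omega) hf _ _ _ _ h (Or.inr hib) (hZ _ hsh'))

end Pool.Agent.MWV.H36
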